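import Mathlib

/-! Classes of `w`-sets with large transversal numbers, members of different classes sharing at most
one point: a recursive construction from transversal designs. -/

set_option autoImplicit false

open Finset

namespace Pool.Agent.X43.LP

/-- every class has a member avoiding any given set of at most `t` points, and members of different
classes share at most one point -/
structure Strict (V ι : Type) [DecidableEq V] (t w : ℕ) (P : ι → Set (Finset V)) : Prop where
  cov : ∀ i (T : Finset V), T.card ≤ t → ∃ x ∈ P i, Disjoint x T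
  card : ∀ i, ∀ x ∈ P i, x.card = w
  inter : ∀ i j, i ≠ j → ∀ x ∈ P i, ∀ y ∈ P j, (x ∩ y).card ≤ 1

theorem Strict.map {V V' ι : Type} [DecidableEq V] [DecidableEq V'] {t w : ℕ}
    {P : ι → Set (Finset V)} (h : Strict V ι t w P) (f : V ↪ V') :
    Strict V' ι t w (fun i => (Finset.map f) '' P i) where
  cov i T hT := by
    have h1 : ((T.preimage f f.injective.injOn).map f).card ≤ T.card := by
      refine card_le_card fun v hv => ?_
      obtain ⟨u, hu, rfl⟩ := mem_map.1 hv
      exact mem_preimage.1 hu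
    rw [card_map] at h1
    obtain ⟨x, hx, hd⟩ := h.cov i _ (h1.trans hT)
    refine ⟨x.map f, ⟨x, hx, rfl⟩, ?_⟩
    rw [Finset.disjoint_left] at hd ⊢
    intro v hv hvT
    obtain ⟨u, hu, rfl⟩ := mem_map.1 hv
    exact hd hu (mem_preimage.2 hvT)
  card i := by
    rintro _ ⟨x, hx, rfl⟩
    rw [card_map]
    exact h.card i x hx
  inter i j hij := by
    rintro _ ⟨x, hx, rfl⟩ _ ⟨y, hy, rfl⟩
    rw [← map_inter, card_map]
    exact h.inter i j hij x hx y hy

theorem Strict.sum {V ι₁ ι₂ : Type} [DecidableEq V] {t w : ℕ} {P : ι₁ → Set (Finset V)}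
    {Q : ι₂ → Set (Finset V)} (h1 : Strict V ι₁ t w P) (h2 : Strict V ι₂ t w Q)
    (hc : ∀ i j, ∀ x ∈ P i, ∀ y ∈ Q j, (x ∩ y).card ≤ 1) :
    Strict V (ι₁ ⊕ ι₂) t w (Sum.elim P Q) where
  cov i T hT := by
    rcases i with i | i
    · exact h1.cov i T hT
    · exact h2.cov i T hT
  card i := by
    rcases i with i | i
    · exact h1.card i
    · exact h2.card i
  inter i j hij := by
    rcases i with i | i <;> rcases j with j | j
    · exact h1.inter i j (fun h => hij (by rw [h]))
    · exact fun x hx y hy => hc i j x hx y hy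
    · intro x hx y hy
      rw [inter_comm]
      exact hc j i y hy x hx
    · exact h2.inter i j (fun h => hij (by rw [h]))

theorem Strict.reindex {V ι ι' : Type} [DecidableEq V] {t w : ℕ} {P : ι → Set (Finset V)}
    (h : Strict V ι t w P) (e : ι' ↪ ι) : Strict V ι' t w (fun i => P (e i)) where
  cov i T hT := h.cov (e i) T hT
  card i := h.card (e i)
  inter i j hij := h.inter (e i) (e j) fun he => hij (e.injective he)

/-- there is such a family of `b` classes on `n` points -/
def Has (t w n b : ℕ) : Prop := ∃ P : Fin b → Set (Finset (Fin n)), Strict (Fin n) (Fin b) t w P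

theorem Has.of_strict {V ι : Type} [DecidableEq V] [Fintype V] [Fintype ι] {t w n b : ℕ}
    {P : ι → Set (Finset V)} (h : Strict V ι t w P) (hV : Fintype.card V ≤ n)
    (hb : b ≤ Fintype.card ι) : Has t w n b := by
  obtain ⟨f⟩ : Nonempty (V ↪ Fin n) := Function.Embedding.nonempty_of_card_le (by simpa using hV)
  obtain ⟨e⟩ : Nonempty (Fin b ↪ ι) := Function.Embedding.nonempty_of_card_le (by simpa using hb)
  exact ⟨_, (h.map f).reindex e⟩

section TD

variable {w m : ℕ} [NeZero m]

/-- a block of the transversal design -/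
def block (w : ℕ) {m : ℕ} [NeZero m] (b a : ZMod m) : Finset (Fin (w + 1) × ZMod m) :=
  univ.filter fun p => p.2 = a + (p.1.val : ZMod m) * b

theorem mem_block {b a : ZMod m} {p : Fin (w + 1) × ZMod m} :
    p ∈ block w b a ↔ p.2 = a + (p.1.val : ZMod m) * b := by
  simp [block]

theorem card_block (b a : ZMod m) : (block w b a).card = w + 1 := by
  have : block w b a = univ.map
      ⟨fun i : Fin (w + 1) => (i, a + (i.val : ZMod m) * b), fun i j h => (Prod.ext_iff.1 h).1⟩ := by
    ext p
    rw [mem_block, mem_map]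
    constructor
    · intro hp
      exact ⟨p.1, mem_univ _, by ext <;> simp [hp]⟩
    · rintro ⟨i, -, rfl⟩
      rfl
  rw [this, card_map, card_univ, Fintype.card_fin]

theorem unit_sub (hm : Nat.Coprime m w.factorial) {i j : Fin (w + 1)} (hij : i ≠ j) :
    IsUnit ((i.val : ZMod m) - (j.val : ZMod m)) := by
  have key : ∀ i j : ℕ, j < i → i ≤ w → IsUnit ((i : ZMod m) - (j : ZMod m)) := by
    intro i j h1 h2
    rw [← Nat.cast_sub h1.le, ZMod.isUnit_iff_coprime]
    exact (Nat.Coprime.coprime_dvd_right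
      (Nat.dvd_factorial (by omega) (by omega : i - j ≤ w)) hm).symm
  rcases lt_trichotomy i.val j.val with h | h | h
  · rw [← neg_sub]
    exact (key _ _ h (by have := j.2; omega)).neg
  · exact absurd (Fin.ext h) hij
  · exact key _ _ h (by have := i.2; omega)

theorem inter_block (hm : Nat.Coprime m w.factorial) {b a b' a' : ZMod m}
    (h : ¬ (b = b' ∧ a = a')) : (block w b a ∩ block w b' a').card ≤ 1 := by
  rw [card_le_one]
  rintro ⟨i, y⟩ hp ⟨j, z⟩ hq
  rw [mem_inter, mem_block, mem_block] at hp hq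
  obtain ⟨h1, h2⟩ := hp
  obtain ⟨h3, h4⟩ := hq
  simp only at h1 h2 h3 h4
  by_cases hij : i = j
  · subst hij
    rw [h1, h3]
  · exfalso
    have h5 : ((i.val : ZMod m) - (j.val : ZMod m)) * (b - b') = 0 := by
      linear_combination (-1 : ZMod m) * h1 + h2 + h3 - h4
    have h6 : b - b' = 0 := (unit_sub hm hij).mul_right_eq_zero.1 h5
    have h7 : b = b' := sub_eq_zero.1 h6
    refine h ⟨h7, ?_⟩
    rw [h7] at h1
    exact add_right_cancel (h1.symm.trans h2)

/-- the classes of the transversal design -/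
def tdClass (w k : ℕ) {m : ℕ} [NeZero m] (c : ZMod m × Fin (m / k)) :
    Set (Finset (Fin (w + 1) × ZMod m)) :=
  {x | x.card = w ∧ ∃ r : Fin k, x ⊆ block w c.1 ((c.2.val * k + r.val : ℕ) : ZMod m)}

theorem idx_lt {k : ℕ} (g : Fin (m / k)) (r : Fin k) : g.val * k + r.val < m := by
  have h1 : (g.val + 1) * k ≤ m / k * k := Nat.mul_le_mul_right k g.2
  have h2 : m / k * k ≤ m := Nat.div_mul_le_self m k
  have h3 := r.2
  nlinarith

theorem idx_inj {k : ℕ} {g g' : Fin (m / k)} {r r' : Fin k}
    (h : ((g.val * k + r.val : ℕ) : ZMod m) = ((g'.val * k + r'.val : ℕ) : ZMod m)) :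
    g = g' ∧ r = r' := by
  have h1 : g.val * k + r.val = g'.val * k + r'.val := by
    have h2 := congrArg ZMod.val h
    rwa [ZMod.val_natCast_of_lt (idx_lt g r), ZMod.val_natCast_of_lt (idx_lt g' r')] at h2
  have hk : 0 < k := lt_of_le_of_lt (Nat.zero_le _) r.2
  have h3 : (g.val * k + r.val) / k = (g'.val * k + r'.val) / k := by rw [h1]
  rw [Nat.mul_comm, Nat.mul_add_div hk, Nat.div_eq_of_lt r.2, Nat.mul_comm, Nat.mul_add_div hk,
    Nat.div_eq_of_lt r'.2] at h3
  have h4 : g = g' := Fin.ext (by omega)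
  subst h4
  exact ⟨rfl, Fin.ext (by omega)⟩

theorem td_strict {t k : ℕ} (hk : t + 1 ≤ 2 * k) (hm : Nat.Coprime m w.factorial) :
    Strict (Fin (w + 1) × ZMod m) (ZMod m × Fin (m / k)) t w (tdClass w k) where
  cov c T hT := by
    -- one of the `k` disjoint blocks meets `T` in at most one point
    obtain ⟨r, hr⟩ : ∃ r : Fin k,
        (block w c.1 ((c.2.val * k + r.val : ℕ) : ZMod m) ∩ T).card ≤ 1 := by
      by_contra hcon
      push Not at hcon
      have h1 : ∑ r : Fin k, 2 ≤
          ∑ r : Fin k, (block w c.1 ((c.2.val * k + r.val : ℕ) : ZMod m) ∩ T).card :=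
        sum_le_sum fun r _ => hcon r
      have h2 : ∑ r : Fin k, (block w c.1 ((c.2.val * k + r.val : ℕ) : ZMod m) ∩ T).card ≤
          T.card := by
        rw [← card_biUnion]
        · refine card_le_card fun p hp => ?_
          obtain ⟨r, -, hr⟩ := mem_biUnion.1 hp
          exact (mem_inter.1 hr).2
        · intro r _ r' _ hrr
          rw [Function.onFun, Finset.disjoint_left]
          intro p hp hp'
          rw [mem_inter, mem_block] at hp hp'
          have h3 := add_right_cancel (hp.1.symm.trans hp'.1)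
          exact hrr (idx_inj h3).2
      simp only [sum_const, card_univ, Fintype.card_fin, smul_eq_mul] at h1
      omega
    have h1 := card_sdiff_add_card_inter (block w c.1 ((c.2.val * k + r.val : ℕ) : ZMod m)) T
    rw [card_block] at h1
    obtain ⟨x, hx, hxc⟩ := exists_subset_card_eq (s := block w c.1
      ((c.2.val * k + r.val : ℕ) : ZMod m) \ T) (n := w) (by omega)
    refine ⟨x, ⟨hxc, r, hx.trans sdiff_subset⟩, ?_⟩
    rw [Finset.disjoint_left]
    intro p hp
    exact (mem_sdiff.1 (hx hp)).2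
  card c x hx := hx.1
  inter c c' hc x hx y hy := by
    obtain ⟨-, r, hr⟩ := hx
    obtain ⟨-, r', hr'⟩ := hy
    refine (card_le_card (inter_subset_inter hr hr')).trans (inter_block hm ?_)
    rintro ⟨h1, h2⟩
    exact hc (Prod.ext h1 (idx_inj h2).1)

/-- the classes inside the groups -/
theorem group_strict {t b : ℕ} {Q : Fin b → Set (Finset (ZMod m))}
    (h : Strict (ZMod m) (Fin b) t w Q) :
    Strict (Fin (w + 1) × ZMod m) (Fin (w + 1) × Fin b) t w
      (fun c => (Finset.map (Function.Embedding.sectR c.1 (ZMod m))) '' Q c.2) where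
  cov c T hT := (h.map (Function.Embedding.sectR c.1 (ZMod m))).cov c.2 T hT
  card c := (h.map (Function.Embedding.sectR c.1 (ZMod m))).card c.2
  inter c c' hc := by
    by_cases h1 : c.1 = c'.1
    · rw [← h1]
      exact (h.map (Function.Embedding.sectR c.1 (ZMod m))).inter c.2 c'.2
        fun h2 => hc (Prod.ext h1 h2)
    · rintro _ ⟨x, hx, rfl⟩ _ ⟨y, hy, rfl⟩
      rw [card_le_one]
      intro p hp
      exfalso
      rw [mem_inter, mem_map, mem_map] at hp
      obtain ⟨⟨u, -, h2⟩, ⟨v, -, h3⟩⟩ := hp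
      rw [← h3] at h2
      exact h1 (Prod.ext_iff.1 h2).1

end TD

/-- **the recursive construction** -/
theorem Has.recur {t w k n m b : ℕ} (hk : t + 1 ≤ 2 * k) (hm0 : 0 < m)
    (hm : Nat.Coprime m w.factorial) (hn : (w + 1) * m ≤ n) (hb : Has t w m b) :
    Has t w n (m * (m / k) + (w + 1) * b) := by
  have : NeZero m := ⟨hm0.ne'⟩
  obtain ⟨Q, hQ⟩ := hb
  have h1 : Fintype.card (Fin m) = Fintype.card (ZMod m) := by rw [ZMod.card, Fintype.card_fin]
  let e : Fin m ≃ ZMod m := Fintype.equivOfCardEq h1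
  have h2 := group_strict (w := w) (hQ.map e.toEmbedding)
  have h3 := td_strict (w := w) hk hm
  have h4 := h3.sum h2 (by
    rintro c c' x ⟨-, r, hr⟩ _ ⟨y, -, rfl⟩
    rw [card_le_one]
    intro p hp q hq
    rw [mem_inter, mem_map] at hp hq
    obtain ⟨hp1, u, -, hu⟩ := hp
    obtain ⟨hq1, v, -, hv⟩ := hq
    have h5 : p.1 = q.1 := by rw [← hu, ← hv]; rfl
    have h6 := mem_block.1 (hr hp1)
    have h7 := mem_block.1 (hr hq1)
    refine Prod.ext h5 ?_
    rw [h6, h7, h5])
  refine Has.of_strict h4 ?_ ?_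
  · rw [Fintype.card_prod, Fintype.card_fin, ZMod.card]
    exact hn
  · rw [Fintype.card_sum, Fintype.card_prod, Fintype.card_prod, Fintype.card_fin, Fintype.card_fin,
      Fintype.card_fin, ZMod.card]

theorem Has.zero (t w n : ℕ) : Has t w n 0 := by
  refine ⟨fun i => i.elim0, ?_, ?_, ?_⟩
  · intro i
    exact i.elim0
  · intro i
    exact i.elim0
  · intro i
    exact i.elim0

end Pool.Agent.X43.LP
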