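import Pool.Agent.X43.LP.A

/-! Asymptotics of the recursive construction. -/

set_option autoImplicit false

open Filter Finset
open scoped Topology

namespace Pool.Agent.X43.LP

/-- asymptotically at least `c n ^ 2` classes -/
def Asym (t w : ℕ) (c : ℝ) : Prop :=
  ∀ᶠ n : ℕ in atTop, ∃ b : ℕ, Has t w n b ∧ c * (n : ℝ) ^ 2 ≤ b

theorem Asym.step {t w k : ℕ} (hk : t + 1 ≤ 2 * k) {c c' : ℝ} (h : Asym t w c')
    (h0 : 0 ≤ 1 / (k : ℝ) + (w + 1) * c')
    (hc : c < (1 / (k : ℝ) + (w + 1) * c') / (w + 1) ^ 2) : Asym t w c := by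
  have hk0 : 0 < k := by omega
  have hk' : (0 : ℝ) < k := by exact_mod_cast hk0
  obtain ⟨W, hW⟩ : ∃ W : ℝ, W = (w : ℝ) + 1 := ⟨_, rfl⟩
  have hW0 : 0 < W := by rw [hW]; positivity
  obtain ⟨A, hA⟩ : ∃ A : ℝ, A = 1 / (k : ℝ) + (w + 1) * c' := ⟨_, rfl⟩
  rw [← hA] at h0 hc
  rw [← hW] at hc
  set F := w.factorial with hF
  have hF0 : 0 < F := Nat.factorial_pos w
  obtain ⟨K, hK⟩ : ∃ K : ℝ, K = (F : ℝ) + 2 := ⟨_, rfl⟩
  have hK0 : 0 < K := by rw [hK]; positivity
  -- the length of the groups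
  let μ : ℕ → ℕ := fun n => F * ((n / (w + 1) - 1) / F) + 1
  have hμ1 : ∀ n : ℕ, w + 1 ≤ n → (w + 1) * μ n ≤ n := by
    intro n hn
    have h1 : 1 ≤ n / (w + 1) := (Nat.one_le_div_iff (by omega)).2 hn
    have h2 : F * ((n / (w + 1) - 1) / F) ≤ n / (w + 1) - 1 := Nat.mul_div_le _ _
    have h3 : μ n ≤ n / (w + 1) := by
      show F * ((n / (w + 1) - 1) / F) + 1 ≤ _
      omega
    exact (Nat.mul_le_mul_left _ h3).trans (Nat.mul_div_le _ _)
  have hμ2 : ∀ n : ℕ, (n : ℝ) / W - K ≤ μ n := by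
    intro n
    have h1 : n / (w + 1) - 1 < F * ((n / (w + 1) - 1) / F) + F := Nat.lt_mul_div_succ _ hF0 |>.trans_eq (by ring)
    have h2 : n < (w + 1) * (n / (w + 1)) + (w + 1) :=
      (Nat.lt_mul_div_succ n (by omega : 0 < w + 1)).trans_eq (by ring)
    have h3 : n / (w + 1) ≤ μ n + F := by
      show _ ≤ F * ((n / (w + 1) - 1) / F) + 1 + F
      omega
    have h4 : (n : ℝ) ≤ W * ((n / (w + 1) : ℕ) : ℝ) + W := by
      rw [hW]
      exact_mod_cast h2.le
    have h5 : ((n / (w + 1) : ℕ) : ℝ) ≤ (μ n : ℝ) + F := by exact_mod_cast h3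
    rw [sub_le_iff_le_add, div_le_iff₀ hW0, hK]
    nlinarith
  have hμ3 : Tendsto μ atTop atTop := by
    have h1 : Tendsto (fun n : ℕ => (n : ℝ) / W - K) atTop atTop :=
      tendsto_atTop_add_const_right _ _ (tendsto_natCast_atTop_atTop.atTop_div_const hW0)
    have h2 : Tendsto (fun n : ℕ => (μ n : ℝ)) atTop atTop := tendsto_atTop_mono hμ2 h1
    exact tendsto_natCast_atTop_iff.1 h2
  have hcop : ∀ n, Nat.Coprime (μ n) w.factorial := by
    intro n
    show Nat.Coprime (F * ((n / (w + 1) - 1) / F) + 1) F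
    have h1 : Nat.Coprime (1 + F * ((n / (w + 1) - 1) / F)) F :=
      (Nat.coprime_add_mul_left_left 1 F _).2 (Nat.coprime_one_left F)
    rwa [add_comm] at h1
  -- largeness
  have hgap : 0 < A / W ^ 2 - c := by linarith
  obtain ⟨N1, hN1⟩ := exists_nat_gt ((2 * A * K / W + 1 / W) / (A / W ^ 2 - c))
  obtain ⟨N2, hN2⟩ := exists_nat_gt (K * W)
  filter_upwards [hμ3.eventually h, eventually_ge_atTop (max (max N1 N2) (w + 1))] with n hn hn2
  obtain ⟨b, hb, hcb⟩ := hn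
  have hnw : w + 1 ≤ n := le_trans (le_max_right _ _) hn2
  have hnN1 : N1 ≤ n := by omega
  have hnN2 : N2 ≤ n := by omega
  have hnN1' : (N1 : ℝ) ≤ n := by exact_mod_cast hnN1
  have hnN2' : (N2 : ℝ) ≤ n := by exact_mod_cast hnN2
  refine ⟨μ n * (μ n / k) + (w + 1) * b, Has.recur hk (Nat.succ_pos _) (hcop n) (hμ1 n hnw) hb, ?_⟩
  obtain ⟨M, hM⟩ : ∃ M : ℝ, M = (μ n : ℝ) := ⟨_, rfl⟩
  have hM0 : 0 ≤ M := by rw [hM]; positivity
  have hM1 : (n : ℝ) / W - K ≤ M := by rw [hM]; exact hμ2 n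
  have hM2 : M ≤ (n : ℝ) / W := by
    rw [le_div_iff₀ hW0, hM, hW, mul_comm]
    exact_mod_cast hμ1 n hnw
  have hq : M / k - 1 ≤ ((μ n / k : ℕ) : ℝ) := by
    have h1 : μ n < k * (μ n / k) + k := (Nat.lt_mul_div_succ _ hk0).trans_eq (by ring)
    have h2 : (μ n : ℝ) < k * ((μ n / k : ℕ) : ℝ) + k := by exact_mod_cast h1
    rw [sub_le_iff_le_add, div_le_iff₀ hk', hM]
    linarith
  push_cast
  rw [← hM] at hcb ⊢
  have h1 : M * (M / k - 1) ≤ M * ((μ n / k : ℕ) : ℝ) := mul_le_mul_of_nonneg_left hq hM0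
  have h2 : ((w : ℝ) + 1) * (c' * M ^ 2) ≤ ((w : ℝ) + 1) * b := by gcongr
  have h3 : A * M ^ 2 - M ≤ M * ((μ n / k : ℕ) : ℝ) + ((w : ℝ) + 1) * b := by
    have e : A * M ^ 2 - M = M * (M / k - 1) + ((w : ℝ) + 1) * (c' * M ^ 2) := by
      rw [hA]
      field_simp
      ring
    rw [e]
    linarith
  refine le_trans ?_ h3
  have hnn : 0 ≤ (n : ℝ) / W - K := by
    rw [sub_nonneg, le_div_iff₀ hW0]
    linarith
  have h4 : A * ((n : ℝ) / W - K) ^ 2 ≤ A * M ^ 2 := by gcongr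
  have h5 : (2 * A * K / W + 1 / W) ≤ (A / W ^ 2 - c) * n := by
    rw [div_lt_iff₀ hgap] at hN1
    nlinarith
  have hn0 : (0 : ℝ) ≤ n := Nat.cast_nonneg n
  have h6 : (2 * A * K / W + 1 / W) * n ≤ (A / W ^ 2 - c) * n * n :=
    mul_le_mul_of_nonneg_right h5 hn0
  have h7 : A * ((n : ℝ) / W - K) ^ 2 = A / W ^ 2 * n * n - 2 * A * K / W * n + A * K ^ 2 := by
    field_simp
    ring
  have h8 : 0 ≤ A * K ^ 2 := by positivity
  have h9 : M ≤ 1 / W * n := by
    rw [one_div, inv_mul_eq_div]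
    exact hM2
  nlinarith

theorem asym_all {t w k : ℕ} (hk : t + 1 ≤ 2 * k) (hw : 1 ≤ w) {c : ℝ}
    (hc : c < 1 / ((k : ℝ) * w * (w + 1))) : Asym t w c := by
  have hk0 : 0 < k := by omega
  have hk' : (0 : ℝ) < k := by exact_mod_cast hk0
  have hw' : (1 : ℝ) ≤ w := by exact_mod_cast hw
  obtain ⟨W, hW⟩ : ∃ W : ℝ, W = (w : ℝ) + 1 := ⟨_, rfl⟩
  have hW0 : 0 < W := by rw [hW]; positivity
  obtain ⟨s, hs⟩ : ∃ s : ℝ, s = 1 / ((k : ℝ) * w * (w + 1)) := ⟨_, rfl⟩
  have hs0 : 0 < s := by rw [hs]; positivity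
  rw [← hs] at hc
  have key : ∀ j : ℕ, ∀ c : ℝ, c < s * (1 - (1 / W) ^ j) → Asym t w c := by
    intro j
    induction j with
    | zero =>
      intro c hc
      rw [pow_zero, sub_self, mul_zero] at hc
      refine Eventually.of_forall fun n => ⟨0, Has.zero t w n, ?_⟩
      rw [Nat.cast_zero]
      exact mul_nonpos_of_nonpos_of_nonneg hc.le (by positivity)
    | succ j ih =>
      intro c hc
      set cj := s * (1 - (1 / W) ^ j) with hcj
      have hcj0 : 0 ≤ cj := by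
        rw [hcj]
        refine mul_nonneg hs0.le ?_
        rw [sub_nonneg]
        refine pow_le_one₀ (by positivity) ?_
        rw [div_le_one hW0, hW]
        linarith
      -- `c_{j+1} = (1/k + W c_j) / W²`
      have e1 : s * (1 - (1 / W) ^ (j + 1)) = (1 / (k : ℝ) + W * cj) / W ^ 2 := by
        have e2 : s * w * W * k = 1 := by
          rw [hs, hW]
          field_simp
        have e3 : (w : ℝ) = W - 1 := by rw [hW]; ring
        rw [hcj, pow_succ]
        obtain ⟨y, hy⟩ : ∃ y : ℝ, y = (1 / W) ^ j := ⟨_, rfl⟩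
        rw [← hy]
        rw [e3] at e2
        have e4 : 1 / (k : ℝ) = s * (W - 1) * W := by
          rw [div_eq_iff hk'.ne']
          linarith
        rw [e4]
        field_simp
        ring
      rw [e1] at hc
      obtain ⟨δ, hδ⟩ : ∃ δ : ℝ, δ = min (((1 / (k : ℝ) + W * cj) / W ^ 2 - c) * W / 2)
        (1 / (k * W)) := ⟨_, rfl⟩
      have hδ0 : 0 < δ := by
        rw [hδ]
        refine lt_min ?_ (by positivity)
        have : 0 < (1 / (k : ℝ) + W * cj) / W ^ 2 - c := by linarith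
        positivity
      have hδ1 : δ ≤ ((1 / (k : ℝ) + W * cj) / W ^ 2 - c) * W / 2 := by rw [hδ]; exact min_le_left _ _
      have hδ2 : δ ≤ 1 / (k * W) := by rw [hδ]; exact min_le_right _ _
      have h1 : Asym t w (cj - δ) := ih _ (by linarith)
      refine h1.step hk ?_ ?_
      · rw [← hW]
        have h2 : W * δ ≤ 1 / k := by
          calc W * δ ≤ W * (1 / (k * W)) := by gcongr
            _ = 1 / k := by field_simp
        have h3 : 0 ≤ W * cj := by positivity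
        linarith
      · rw [← hW]
        have e5 : (1 / (k : ℝ) + W * (cj - δ)) / W ^ 2 = (1 / (k : ℝ) + W * cj) / W ^ 2 - δ / W := by
          field_simp
          ring
        rw [e5]
        have h4 : δ / W ≤ ((1 / (k : ℝ) + W * cj) / W ^ 2 - c) / 2 := by
          rw [div_le_iff₀ hW0]
          linarith
        linarith
  have hlim : Tendsto (fun j : ℕ => s * (1 - (1 / W) ^ j)) atTop (𝓝 (s * (1 - 0))) := by
    refine Tendsto.const_mul _ (Tendsto.const_sub _ ?_)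
    refine tendsto_pow_atTop_nhds_zero_of_lt_one (by positivity) ?_
    rw [div_lt_one hW0, hW]
    linarith
  rw [sub_zero, mul_one] at hlim
  obtain ⟨j, hj⟩ := (hlim.eventually (lt_mem_nhds hc)).exists
  exact key j c hj

end Pool.Agent.X43.LP
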